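import Mathlib
import Pool.Agent.R328.TA

/-!
# Growth gaps that do not depend on the rank: eigenvalues with companions of bounded height

`G = ⟨S⟩`, `H` is a subgroup of index at most `d`, `Γ = γ_{k+1}(H)` is nilpotent (or `H/[Γ,Γ]` is
not virtually nilpotent), and `A = Γ^ab`, on which `H` acts by conjugation.  The starting result
`DerivedFactorRanks` has a gap that depends on the rank `m` of `A` through `(log (2 m)) ^ 3`.  Here
the logarithm of the rank is replaced by finer invariants of the eigenvalues `z` (units, not roots of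
unity) of the elements of `H` on `ℂ ⊗ A`; let `f` be the minimal polynomial of `z`.

1. If every `f` has a companion `Q ∈ ℤ[X]`, not divisible by `f`, of degree at most `deg f`, such
   that the mean of `log max (|f|, |Q|)` on the unit circle is at most `K`, then `G` is virtually
   nilpotent or `ρ_S ≥ c / (2 ^ k d (1 + K) ^ 3)`.
2. If every `f` has a nonzero `Q ∈ ℤ[X]` with `deg Q < deg f` such that the sum of `|Q(a) / f'(a)|`
   over the zeros of `f` is at most `L`, then `G` is virtually nilpotent or
   `ρ_S ≥ c / (2 ^ k d (1 + log (1 + L)) ^ 3)`.  (`Q = f'` gives `L = deg f`.)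
3. The same conclusion as in 2 holds if `A` has a basis for which the matrix of every `t ∈ H` with
   an eigenvalue as above has irreducible characteristic polynomial and, after a change of basis with
   condition number at most `L` (which may depend on `t`), is the orthogonal direct sum of a
   contraction and of a matrix that does not decrease norms.  (For instance, if the elements of `H`
   act as normal matrices after a change of basis with condition number at most `L`.)
-/

set_option autoImplicit false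

namespace Pool.Agent.Results.MP_d69e80_al.CompanionGrowth

open Filter Topology Polynomial
open scoped Pointwise commutatorElement TensorProduct

universe u

/-- The term `γ_{k+1}(G)` of the lower central series (so `k = 1` gives `G'`). -/
abbrev gamma (G : Type*) [Group G] (k : ℕ) : Subgroup G := (⊤ : Subgroup G).lowerCentralSeries k

/-- Conjugation by `t` on a normal subgroup `N`. -/
noncomputable def conjHom {G : Type*} [Group G] (N : Subgroup G) [N.Normal] (t : G) : N →* N :=
  (MulAut.conjNormal t : N ≃* N).toMonoidHom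

/-- Conjugation by `t` on the abelianization `N^ab` of a normal subgroup `N`. -/
noncomputable def conjMap {G : Type*} [Group G] (N : Subgroup G) [N.Normal] (t : G) :
    Abelianization N →* Abelianization N :=
  Abelianization.map (conjHom N t)

/-- Conjugation by `t` on the abelianization `N^ab` (written additively) of a normal subgroup `N`,
as a map. -/
noncomputable def conjFun {G : Type*} [Group G] (N : Subgroup G) [N.Normal] (t : G)
    (x : Additive (Abelianization N)) : Additive (Abelianization N) :=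
  Additive.ofMul (conjMap N t x.toMul)

lemma conjFun_add {G : Type*} [Group G] (N : Subgroup G) [N.Normal] (t : G)
    (x y : Additive (Abelianization N)) : conjFun N t (x + y) = conjFun N t x + conjFun N t y :=
  map_mul (conjMap N t) x.toMul y.toMul

/-- Conjugation by `t` on the abelianization `N^ab` (written additively) of a normal subgroup `N`,
as a homomorphism of the abelian group `N^ab`. -/
noncomputable def conjAdd {G : Type*} [Group G] (N : Subgroup G) [N.Normal] (t : G) :
    Additive (Abelianization N) →+ Additive (Abelianization N) :=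
  AddMonoidHom.mk' (conjFun N t) (conjFun_add N t)

/-- Conjugation by `t` on the abelianization `N^ab` (written additively) of a normal subgroup `N`,
as an endomorphism of the `ℤ`-module `N^ab`. -/
noncomputable def conjAb {G : Type*} [Group G] (N : Subgroup G) [N.Normal] (t : G) :
    Module.End ℤ (Additive (Abelianization N)) :=
  (conjAdd N t).toIntLinearMap

/-- The bases of the `ℤ`-module `N^ab` with `n` elements. -/
abbrev AbBasis {G : Type*} [Group G] (N : Subgroup G) (n : ℕ) :=
  Module.Basis (Fin n) ℤ (Additive (Abelianization N))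

/-- The matrix of the conjugation by `t` on `N^ab` in the basis `b`. -/
noncomputable def conjMatrix {G : Type*} [Group G] (N : Subgroup G) [N.Normal] {n : ℕ}
    (b : AbBasis N n) (t : G) : Matrix (Fin n) (Fin n) ℤ :=
  fun i j => b.coord i (conjAb N t (b j))

/-- `z` is an eigenvalue of `t ∈ H` acting on `ℂ ⊗ Γ^ab`, `Γ = γ_{k+1}(H)`, it is an algebraic unit
and not a root of unity. -/
def UnitEigenvalue {H : Type*} [Group H] (k : ℕ) (t : H) (z : ℂ) : Prop :=
  Module.End.HasEigenvalue (LinearMap.baseChange ℂ (conjAb (gamma H k) t) :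
    Module.End ℂ (ℂ ⊗[ℤ] Additive (Abelianization (gamma H k)))) z ∧
  IsIntegral ℤ z ∧ IsIntegral ℤ z⁻¹ ∧ ∀ m : ℕ, 0 < m → z ^ m ≠ 1

/-- The mean of `log max (|f|, |Q|)` on the unit circle. -/
noncomputable def pairHeight (f Q : ℤ[X]) : ℝ :=
  Real.circleAverage (fun z : ℂ => Real.log (max ‖aeval z f‖ ‖aeval z Q‖)) 0 1

/-- The sum of the absolute values `|Q(a)| / |f'(a)|` over the complex zeros `a` of `f`. -/
noncomputable def residueSum (f Q : ℤ[X]) : ℝ :=
  ∑ a ∈ (f.map (Int.castRingHom ℂ)).roots.toFinset,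
    ‖(Q.map (Int.castRingHom ℂ)).eval a‖ / ‖(derivative (f.map (Int.castRingHom ℂ))).eval a‖

/-- The sum of the squares of the absolute values of the coordinates. -/
noncomputable def sqNorm {n : ℕ} (x : Fin n → ℂ) : ℝ := ∑ i, ‖x i‖ ^ 2

/-- The condition number `‖S‖ ‖T‖` of a matrix `S` with inverse `T` is at most `L`. -/
def CondLe (L : ℝ) {n : ℕ} (S T : Matrix (Fin n) (Fin n) ℂ) : Prop :=
  ∃ a b : ℝ, 0 ≤ a ∧ 0 ≤ b ∧ a * b ≤ L ∧ (∀ x, sqNorm (S.mulVec x) ≤ a ^ 2 * sqNorm x) ∧
    ∀ x, sqNorm (T.mulVec x) ≤ b ^ 2 * sqNorm x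

/-- There is a matrix `S` with `‖S‖ ‖S⁻¹‖ ≤ L` such that `B = S⁻¹ A S` commutes with an orthogonal
projection `E`, does not increase norms on the range of `E` and does not decrease norms on the
orthogonal complement. -/
def IsAdapted (L : ℝ) {n : ℕ} (A : Matrix (Fin n) (Fin n) ℤ) : Prop :=
  ∃ S T B E : Matrix (Fin n) (Fin n) ℂ, S * T = 1 ∧
    A.map (Int.castRingHom ℂ) = S * B * T ∧ CondLe L S T ∧
    E.conjTranspose = E ∧ E * E = E ∧ B * E = E * B ∧
    (∀ x, sqNorm ((B * E).mulVec x) ≤ sqNorm (E.mulVec x)) ∧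
    (∀ x, sqNorm ((1 - E).mulVec x) ≤ sqNorm ((B * (1 - E)).mulVec x))

/-- Condition 1: all the eigenvalues have companions of height at most `K`. -/
def Companions (H : Type*) [Group H] (k : ℕ) (K : ℝ) : Prop :=
  0 ≤ K ∧ ∀ (t : H) (z : ℂ), UnitEigenvalue k t z → ∃ Q : ℤ[X], aeval z Q ≠ 0 ∧
    Q.natDegree ≤ (minpoly ℤ z).natDegree ∧ pairHeight (minpoly ℤ z) Q ≤ K

/-- Condition 2: all the eigenvalues have residue sums of at most `L`. -/
def Residues (H : Type*) [Group H] (k : ℕ) (L : ℝ) : Prop :=
  0 ≤ L ∧ ∀ (t : H) (z : ℂ), UnitEigenvalue k t z → ∃ Q : ℤ[X], Q ≠ 0 ∧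
    Q.degree < (minpoly ℤ z).degree ∧ residueSum (minpoly ℤ z) Q ≤ L

/-- Condition 3: `Γ^ab` has a basis such that all elements of `H` with an eigenvalue that is a unit
and not a root of unity have adapted matrices with irreducible characteristic polynomials. -/
def Adapted (H : Type*) [Group H] (k : ℕ) (L : ℝ) : Prop :=
  0 ≤ L ∧ ∃ (n : ℕ) (b : AbBasis (gamma H k) n), ∀ (t : H) (z : ℂ), UnitEigenvalue k t z →
    Irreducible (conjMatrix (gamma H k) b t).charpoly ∧ IsAdapted L (conjMatrix (gamma H k) b t)

/-- `S` is a finite generating set of `G`, the subgroup `H` has index at most `d`, and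
`Γ = γ_{k+1}(H)` is nilpotent or `H / [Γ, Γ]` is not virtually nilpotent. -/
def Setting (k d : ℕ) {G : Type*} [Group G] (S : Set G) (H : Subgroup G) : Prop :=
  1 ≤ k ∧ S.Finite ∧ Subgroup.closure S = ⊤ ∧ H.index ≠ 0 ∧ H.index ≤ d ∧
    (Group.IsNilpotent (gamma H k) ∨ ¬ Group.IsVirtuallyNilpotent (H ⧸ ⁅gamma H k, gamma H k⁆))

lemma conjMatrix_eq {G : Type*} [Group G] (N : Subgroup G) [N.Normal] {n : ℕ}
    (b : AbBasis N n) (t : G) : conjMatrix N b t = LinearMap.toMatrix b b (conjAb N t) := by
  ext i j
  rw [LinearMap.toMatrix_apply]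
  rfl

theorem result : ∃ c : ℝ, 0 < c ∧
    ∀ (k d : ℕ) (G : Type u) [Group G] (S : Set G) (H : Subgroup G), Setting k d S H →
      ∃ ρ : ℝ, Tendsto (fun n : ℕ => Real.log (Nat.card ↥(S ^ n)) / n) atTop (𝓝 ρ) ∧
        (∀ K : ℝ, Companions H k K →
          Group.IsVirtuallyNilpotent G ∨ c / (2 ^ k * d * (1 + K) ^ 3) ≤ ρ) ∧
        (∀ L : ℝ, Residues H k L ∨ Adapted H k L →
          Group.IsVirtuallyNilpotent G ∨ c / (2 ^ k * d * (1 + Real.log (1 + L)) ^ 3) ≤ ρ) := by
  obtain ⟨c1, hc1, h1⟩ := Pool.Agent.R328.companion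
  obtain ⟨c2, hc2, h2⟩ := Pool.Agent.R328.residues
  obtain ⟨c3, hc3, h3⟩ := Pool.Agent.R328.adapted
  set c0 := min (min c1 c2) (min c3 (1 / 2)) with hc0def
  have hc0 : 0 < c0 := lt_min (lt_min hc1 hc2) (lt_min hc3 (by norm_num))
  have e1 : c0 ≤ c1 := (min_le_left _ _).trans (min_le_left _ _)
  have e2 : c0 ≤ c2 := (min_le_left _ _).trans (min_le_right _ _)
  have e3 : c0 ≤ c3 := (min_le_right _ _).trans (min_le_left _ _)
  have e4 : c0 ≤ 1 / 2 := (min_le_right _ _).trans (min_le_right _ _)
  refine ⟨c0 / 12, by positivity, ?_⟩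
  rintro k d G _ S H ⟨hk, hfin, hgen, hH0, hHd, hnil⟩
  refine ⟨H746UG.rho S, H746UG.tendsto_rho S, ?_, ?_⟩
  · rintro K ⟨hK, hcomp⟩
    have hy0 : 0 ≤ c0 / (1 + K) ^ 3 := by positivity
    have hy : c0 / (1 + K) ^ 3 ≤ 1 / 2 :=
      (div_le_self hc0.le (one_le_pow₀ (by linarith))).trans e4
    have h4 := Pool.Agent.R328.gap_of_log hk S hfin hgen H hH0 hHd hnil hy0 hy (by
      intro t b x hx0 hx hxi hxi' hp heig
      obtain ⟨Q, hQ1, hQ2, hQ3⟩ := hcomp t x ⟨heig, hxi, hxi', hx⟩
      refine le_trans ?_ (h1 x hxi hx0 hx Q K hQ1 hQ2 hQ3)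
      exact div_le_div_of_nonneg_right e1 (by positivity))
    refine h4.imp_right fun h5 => le_trans (le_of_eq ?_) h5
    rw [div_div, div_div, div_div]
    congr 1
    ring
  rintro L (⟨hL, hres⟩ | ⟨hL, n, b, hmat⟩)
  · have hl : 0 ≤ Real.log (1 + L) := Real.log_nonneg (by linarith)
    have hy0 : 0 ≤ c0 / (1 + Real.log (1 + L)) ^ 3 := by positivity
    have hy : c0 / (1 + Real.log (1 + L)) ^ 3 ≤ 1 / 2 :=
      (div_le_self hc0.le (one_le_pow₀ (by linarith))).trans e4
    have h4 := Pool.Agent.R328.gap_of_log hk S hfin hgen H hH0 hHd hnil hy0 hy (by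
      intro t b x hx0 hx hxi hxi' hp heig
      obtain ⟨Q, hQ1, hQ2, hQ3⟩ := hres t x ⟨heig, hxi, hxi', hx⟩
      have hM : 1 < Pool.Agent.W963.GE.MM x := Pool.Agent.W963.GE.MM_gt x hxi hx0 hx
      have h5 := h2 (minpoly ℤ x) Q L (minpoly.irreducible hxi) hQ1 hQ2 hQ3 hM
      refine le_trans ?_ h5
      exact div_le_div_of_nonneg_right e2 (by positivity))
    refine h4.imp_right fun h5 => le_trans (le_of_eq ?_) h5
    rw [div_div, div_div, div_div]
    congr 1
    ring
  · have hl : 0 ≤ Real.log (1 + L) := Real.log_nonneg (by linarith)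
    have hy0 : 0 ≤ c0 / (1 + Real.log (1 + L)) ^ 3 := by positivity
    have hy : c0 / (1 + Real.log (1 + L)) ^ 3 ≤ 1 / 2 :=
      (div_le_self hc0.le (one_le_pow₀ (by linarith))).trans e4
    have h4 := Pool.Agent.R328.gap_of_log hk S hfin hgen H hH0 hHd hnil hy0 hy (by
      intro t a x hx0 hx hxi hxi' hp heig
      obtain ⟨hirr, S', T', B', E', g1, g2, ⟨α, β, ha, hb, hab, hS, hT⟩, g4, g5, g6, g7, g8⟩ :=
        hmat t x ⟨heig, hxi, hxi', hx⟩
      have hAd := Pool.Agent.Y820.LB.ad_of L _ S' T' B' E' α β g1 g2 ha hb hab hS hT g4 g5 g6 g7 g8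
      have hM : 1 < Pool.Agent.W963.GE.MM x := Pool.Agent.W963.GE.MM_gt x hxi hx0 hx
      have hchar : aeval x (conjMatrix (gamma H k) b t).charpoly = 0 := by
        apply hp
        have h6 : Module.Free ℤ (Additive (Abelianization (gamma H k))) := Module.Free.of_basis b
        have h7 : Module.Finite ℤ (Additive (Abelianization (gamma H k))) := Module.Finite.of_basis b
        have h8 : (conjMatrix (gamma H k) b t).charpoly =
            (conjAb (gamma H k) t).charpoly := by
          rw [conjMatrix_eq]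
          exact LinearMap.charpoly_toMatrix _ b
        rw [h8]
        have h9 := LinearMap.aeval_self_charpoly (conjAb (gamma H k) t)
        have h10 : (aeval (Pool.Agent.TH53.UG.act (Pool.Agent.W963.GE.gam H k) t))
            (conjAb (gamma H k) t).charpoly = 0 := h9
        rw [h10]
        rfl
      have hmin : minpoly ℤ x = (conjMatrix (gamma H k) b t).charpoly := by
        have h6 := minpoly.isIntegrallyClosed_dvd hxi hchar
        exact eq_of_monic_of_associated (minpoly.monic hxi) (Matrix.charpoly_monic _)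
          ((minpoly.irreducible hxi).associated_of_dvd hirr h6)
      have hM' : 1 < Pool.Agent.H261R2.CM.m1 (conjMatrix (gamma H k) b t).charpoly := by
        rw [← hmin]; exact hM
      have h5 := h3 n _ S' T' B' E' L hAd hirr hM'
      rw [← hmin] at h5
      refine le_trans ?_ h5
      exact div_le_div_of_nonneg_right e3 (by positivity))
    refine h4.imp_right fun h5 => le_trans (le_of_eq ?_) h5
    rw [div_div, div_div, div_div]
    congr 1
    ring

end Pool.Agent.Results.MP_d69e80_al.CompanionGrowth
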