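import Mathlib
import Pool.Agent.R976.UG.Local

/-!
# Uniform growth gap when the eigenvalues have many local factors at a bounded prime

`G = ⟨S⟩`, `H` is a subgroup of index at most `d`, `Γ = γ_{k+1}(H)` is nilpotent (or `H/[Γ,Γ]` is
not virtually nilpotent).  Suppose that for each eigenvalue `z` of an element of `H` acting on
`ℂ ⊗ Γ^ab` that is not a root of unity there is a prime `p ≤ P` (which may depend on `z`) such that
the minimal polynomial of `z` has at least `deg z / B` irreducible factors modulo `p`, counted with
multiplicity.  Then `G` is virtually nilpotent or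
`ρ_S ≥ (180 B²)⁻⁵ P ^ (-2 B - 2) / (2 ^ (k + 2) (2 d - 1))`.

The condition holds if the completions of `ℚ(z)` at the places above `p` have residue degree at
most `B`, and, for instance, if the action of `H` on `Γ^ab / p` has bounded exponent up to
`p`-elements (starting result `BoundedExponentModP`); but here only the average number of factors
matters, nothing is assumed on the other part of the polynomial, and the prime may vary.

Proof.  The reduction to digit sums of one eigenvalue is `Pool.Agent.TH53.UG.gap_general`, and the
Mahler measure of a polynomial with many factors modulo `p` is bounded below by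
`Pool.Agent.H252R3.Leh.factor_bound`.
-/

set_option autoImplicit false

namespace Pool.Agent.Results.MP_d69e80_al.FactorsModP

open Filter Topology Polynomial UniqueFactorizationMonoid
open scoped Pointwise commutatorElement TensorProduct

universe u

/-- The term `γ_{k+1}(G)` of the lower central series (so `k = 1` gives `G'`). -/
abbrev gamma (G : Type*) [Group G] (k : ℕ) : Subgroup G := (⊤ : Subgroup G).lowerCentralSeries k

/-- Conjugation by `t` on the abelianization `N^ab` (written additively) of a normal subgroup `N`,
as an endomorphism of the abelian group `N^ab`. -/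
noncomputable def conjAb {G : Type*} [Group G] (N : Subgroup G) [N.Normal] (t : G) :
    Module.End ℤ (Additive (Abelianization N)) :=
  (MonoidHom.toAdditive
    (Abelianization.map (MulAut.conjNormal t : N ≃* N).toMonoidHom)).toIntLinearMap

/-- The number of irreducible factors of `f` modulo `p`, counted with multiplicity. -/
noncomputable def numFactors (p : ℕ) [Fact p.Prime] (f : ℤ[X]) : ℕ :=
  Multiset.card (normalizedFactors (f.map (Int.castRingHom (ZMod p))))

/-- `z` is a root of unity, or for some prime `p ≤ P` the degree of the minimal polynomial of `z` is at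
most `B` times the number of its irreducible factors modulo `p`. -/
def Good (P B : ℕ) (z : ℂ) : Prop :=
  (∃ m > 0, z ^ m = 1) ∨ ∃ (p : ℕ) (_ : Fact p.Prime), p ≤ P ∧
    (minpoly ℤ z).natDegree ≤ B * numFactors p (minpoly ℤ z)

theorem result (k d P B : ℕ) (hk : 1 ≤ k) (hP : 1 ≤ P) (hB : 1 ≤ B) (G : Type u) [Group G]
    (S : Set G) (hfin : S.Finite) (hgen : Subgroup.closure S = ⊤) (H : Subgroup G)
    (hH0 : H.index ≠ 0) (hHd : H.index ≤ d)
    (hnil : Group.IsNilpotent (gamma H k) ∨
      ¬ Group.IsVirtuallyNilpotent (H ⧸ ⁅gamma H k, gamma H k⁆))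
    (hgood : ∀ (t : H) (z : ℂ),
      Module.End.HasEigenvalue (LinearMap.baseChange ℂ (conjAb (gamma H k) t) :
        Module.End ℂ (ℂ ⊗[ℤ] Additive (Abelianization (gamma H k)))) z → Good P B z) :
    ∃ ρ : ℝ, Tendsto (fun n : ℕ => Real.log (Nat.card ↥(S ^ n)) / n) atTop (𝓝 ρ) ∧
      (Group.IsVirtuallyNilpotent G ∨
        (1 / (180 * (B : ℝ) ^ 2)) ^ 5 * (1 / (P : ℝ) ^ (2 * B + 2)) / (2 ^ (k + 2) * (2 * d - 1)) ≤
          ρ) :=
  ⟨Pool.Agent.H746UG.rho S, Pool.Agent.H746UG.tendsto_rho S,
    Pool.Agent.R976.UG.gap_local hk hP hB S hfin hgen H hH0 hHd hnil hgood⟩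

end Pool.Agent.Results.MP_d69e80_al.FactorsModP
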