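import Mathlib
import Pool.Agent.R976.UG.Gap

/-!
# Uniform growth gap: only reciprocal eigenvalues with few real conjugates matter

`G = ⟨S⟩`, `H` is a subgroup of index at most `d`, `Γ = γ_{k+1}(H)` is nilpotent (or `H/[Γ,Γ]` is
not virtually nilpotent).  Suppose that each eigenvalue `z` of an element of `H` acting on
`ℂ ⊗ Γ^ab` is a root of unity, or has odd degree, or is not a conjugate of `1/z`, or has at least
`deg z / N` real conjugates, or is of CM type.  Then `G` is virtually nilpotent or
`ρ_S ≥ 1 / (3 · 4 ^ N · 2 ^ (k + 1) (2 d - 1))`.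

Proof.  The general reduction to digit sums of one eigenvalue `x` is `Pool.Agent.TH53.UG.gap_general`;
the growth of the digit sums is bounded below in terms of the Mahler measure `M(x)`.  If `x` is not a
conjugate of `1/x`, then `M(x) ≥ 1.28` by a theorem of Smyth (a weak form of it is in
`Pool.Agent.H338R2`).  If at least `n/N` of the `n` conjugates are real, then, with
`2 (m + 1) = 4 ^ N`, the product of `|a|^(2m) |a² - 1|` over all conjugates `a` is at least `1`; a
factor is at most `max(1,|a|)^(4m+2)` times `1/(m+1)` if `a` is real and times `2` if it is not, so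
that `M(x) ^ (4m+2) ≥ 2 ^ n`.
-/

set_option autoImplicit false

namespace Pool.Agent.Results.MP_d69e80_al.NonreciprocalEigenvalues

open Filter Topology Polynomial
open scoped Pointwise commutatorElement TensorProduct ComplexConjugate

universe u

/-- The term `γ_{k+1}(G)` of the lower central series (so `k = 1` gives `G'`). -/
abbrev gamma (G : Type*) [Group G] (k : ℕ) : Subgroup G := (⊤ : Subgroup G).lowerCentralSeries k

/-- Conjugation by `t` on the abelianization `N^ab` (written additively) of a normal subgroup `N`,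
as an endomorphism of the abelian group `N^ab`. -/
noncomputable def conjAb {G : Type*} [Group G] (N : Subgroup G) [N.Normal] (t : G) :
    Module.End ℤ (Additive (Abelianization N)) :=
  (MonoidHom.toAdditive
    (Abelianization.map (MulAut.conjNormal t : N ≃* N).toMonoidHom)).toIntLinearMap

/-- `z` is a root of unity, or its degree over `ℚ` is odd, or `1/z` is not one of its conjugates, or
its degree is at most `N` times the number of its real conjugates, or complex conjugation is given on
the conjugates of `z` by a rational polynomial (as for the elements of CM fields and of totally real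
fields). -/
def Good (N : ℕ) (z : ℂ) : Prop :=
  (∃ m > 0, z ^ m = 1) ∨ Odd (minpoly ℚ z).natDegree ∨ aeval z⁻¹ (minpoly ℚ z) ≠ 0 ∨
    (minpoly ℚ z).natDegree ≤ N * ((minpoly ℚ z).rootSet ℝ).ncard ∨
      ∃ h : ℚ[X], ∀ w : ℂ, aeval w (minpoly ℚ z) = 0 → conj w = aeval w h

theorem result (k d N : ℕ) (hk : 1 ≤ k) (hN : 1 ≤ N) (G : Type u) [Group G] (S : Set G)
    (hfin : S.Finite) (hgen : Subgroup.closure S = ⊤) (H : Subgroup G) (hH0 : H.index ≠ 0)
    (hHd : H.index ≤ d)
    (hnil : Group.IsNilpotent (gamma H k) ∨
      ¬ Group.IsVirtuallyNilpotent (H ⧸ ⁅gamma H k, gamma H k⁆))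
    (hgood : ∀ (t : H) (z : ℂ),
      Module.End.HasEigenvalue (LinearMap.baseChange ℂ (conjAb (gamma H k) t) :
        Module.End ℂ (ℂ ⊗[ℤ] Additive (Abelianization (gamma H k)))) z → Good N z) :
    ∃ ρ : ℝ, Tendsto (fun n : ℕ => Real.log (Nat.card ↥(S ^ n)) / n) atTop (𝓝 ρ) ∧
      (Group.IsVirtuallyNilpotent G ∨ 1 / (3 * 4 ^ N * (2 ^ (k + 1) * (2 * d - 1))) ≤ ρ) :=
  ⟨Pool.Agent.H746UG.rho S, Pool.Agent.H746UG.tendsto_rho S,
    Pool.Agent.R976.UG.gap_good hk hN S hfin hgen H hH0 hHd hnil hgood⟩

end Pool.Agent.Results.MP_d69e80_al.NonreciprocalEigenvalues
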