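import Mathlib
import Pool.Agent.R701.UG.Eqv

/-!
# Uniform growth gap when the eigenvalues are not reciprocal over totally real or CM fields

`G = ⟨S⟩`, `H` is a subgroup of index at most `d`, `Γ = γ_{k+1}(H)` is nilpotent (or `H/[Γ,Γ]` is
not virtually nilpotent).  Suppose that for each eigenvalue `z` of each `t ∈ H` acting on
`ℂ ⊗ Γ^ab`, if `z` is an algebraic unit and not a root of unity, there is a totally real or CM
number field `K` over which `z` and `1 / conj z` are not conjugate (for instance `K = ℚ` if `z` has
odd degree).  Then `G` is virtually nilpotent or `ρ_S ≥ 1 / (2 ^ (k + 4) (2 d - 1))`.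
Moreover the case of metabelian groups of the question, and the case of all groups with
`γ_{k+1}(G)` nilpotent, are equivalent to Lehmer's problem for the remaining units.
-/

set_option autoImplicit false

namespace Pool.Agent.Results.MP_d69e80_al.RelativelyReciprocal

open Filter Topology Polynomial
open scoped Pointwise commutatorElement TensorProduct ComplexConjugate

universe u

/-- The term `γ_{k+1}(G)` of the lower central series (so `k = 1` gives `G'`). -/
abbrev gamma (G : Type*) [Group G] (k : ℕ) : Subgroup G := (⊤ : Subgroup G).lowerCentralSeries k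

/-- Conjugation by `t` on the abelianization `N^ab` (written additively) of a normal subgroup `N`,
as an endomorphism of the abelian group `N^ab`. -/
noncomputable def conjAb {G : Type*} [Group G] (N : Subgroup G) [N.Normal] (t : G) :
    Module.End ℤ (Additive (Abelianization N)) :=
  (MonoidHom.toAdditive
    (Abelianization.map (MulAut.conjNormal t : N ≃* N).toMonoidHom)).toIntLinearMap

/-- The exponential growth rate `ρ_S = lim (1/n) log |S ^ n|`. -/
noncomputable def rho {G : Type*} [Group G] (S : Set G) : ℝ :=
  limUnder atTop (fun n : ℕ => Real.log (Nat.card ↥(S ^ n)) / n)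

/-- The subfield `K` of `ℂ` is totally real or a CM field: some endomorphism `c` of `K` becomes
complex conjugation under every embedding of `K` in `ℂ`. -/
def RealOrCM (K : IntermediateField ℚ ℂ) : Prop :=
  ∃ c : K →+* K, ∀ (σ : K →+* ℂ) (y : K), conj (σ y) = σ (c y)

/-- There is a number field `K` in `ℂ`, totally real or CM, such that `1 / conj z` is not a
conjugate of `z` over `K`. -/
def NotReciprocal (z : ℂ) : Prop :=
  ∃ K : IntermediateField ℚ ℂ, FiniteDimensional ℚ K ∧ RealOrCM K ∧
    aeval (conj z)⁻¹ (minpoly K z) ≠ 0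

/-- `x` is an algebraic unit (`x` and `x⁻¹` are algebraic integers) and not a root of unity. -/
def UnitNotRoot (x : ℂ) : Prop :=
  x ≠ 0 ∧ IsIntegral ℤ x ∧ IsIntegral ℤ x⁻¹ ∧ ∀ m > 0, x ^ m ≠ 1

/-- The Mahler measure of (the minimal polynomial over `ℤ` of) an algebraic integer. -/
noncomputable def mahler (x : ℂ) : ℝ := ((minpoly ℤ x).map (Int.castRingHom ℂ)).mahlerMeasure

/-- `z` is an eigenvalue of `t` acting by conjugation on `ℂ ⊗ N^ab`. -/
def IsEigenvalue {G : Type u} [Group G] (N : Subgroup G) [N.Normal] (t : G) (z : ℂ) : Prop :=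
  Module.End.HasEigenvalue (LinearMap.baseChange ℂ (conjAb N t) :
    Module.End ℂ (ℂ ⊗[ℤ] Additive (Abelianization N))) z

/-- The class of groups, for `k`: with `Γ = γ_{k+1}(G)`, either `Γ` is nilpotent or `G / [Γ, Γ]` is
not virtually nilpotent. -/
def InClass (k : ℕ) (G : Type u) [Group G] : Prop :=
  Group.IsNilpotent (gamma G k) ∨ ¬ Group.IsVirtuallyNilpotent (G ⧸ ⁅gamma G k, gamma G k⁆)

/-- Every eigenvalue `z` of every `t ∈ G` on `ℂ ⊗ γ_{k+1}(G)^ab` which is an algebraic unit and not
a root of unity has odd degree over `ℚ` or is not conjugate to `1 / conj z` over some totally real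
or CM number field. -/
def GoodEigenvalues (k : ℕ) (G : Type u) [Group G] : Prop :=
  ∀ (t : G) (z : ℂ), IsEigenvalue (gamma G k) t z → UnitNotRoot z →
    Odd (minpoly ℤ z).natDegree ∨ NotReciprocal z

/-- The growth gap with constant `c` for metabelian groups (solvability class at most 2). -/
def ClassTwoGap (c : ℝ) : Prop :=
  ∀ (G : Type) [Group G] (S : Set G), S.Finite → Subgroup.closure S = ⊤ →
    derivedSeries G 2 = ⊥ → Group.IsVirtuallyNilpotent G ∨ c ≤ rho S

/-- The growth gap with constant `c` for the groups in the class for `k`. -/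
def ClassKGap (k : ℕ) (c : ℝ) : Prop :=
  ∀ (G : Type) [Group G] (S : Set G), S.Finite → Subgroup.closure S = ⊤ →
    InClass k G → Group.IsVirtuallyNilpotent G ∨ c ≤ rho S

/-- Lehmer's problem has a positive answer for the units `x` (not roots of unity) that are
conjugate to `1 / conj x` over every totally real or CM number field. -/
def LehmerForReciprocalUnits : Prop :=
  ∃ ε > 0, ∀ x : ℂ, UnitNotRoot x → ¬ NotReciprocal x → 1 + ε ≤ mahler x

/-- (I) Let `S` be a finite generating set of a group `G`, `H` a subgroup of index at most `d`,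
`k ≥ 1` and `Γ = γ_{k+1}(H)`.  Suppose that `Γ` is nilpotent or that `H / [Γ, Γ]` is not virtually
nilpotent.  Suppose that every eigenvalue `z` of every `t ∈ H` on `ℂ ⊗ Γ^ab` which is an algebraic
unit and not a root of unity has odd degree over `ℚ`, or is not conjugate to `1 / conj z` over some
totally real or CM number field `K` (`K` may depend on `t` and `z`).  Then `ρ_S` exists and `G` is
virtually nilpotent or `ρ_S ≥ 1 / (2 ^ (k + 4) (2 d - 1))`.
(II) There is a positive gap for metabelian groups if and only if Lehmer's problem has a positive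
answer for the units that are conjugate to `1 / conj x` over every totally real or CM number field;
and the same holds for: for every `k ≥ 1` there is a positive gap for the class for `k`. -/
theorem result :
    (∀ (k d : ℕ), 1 ≤ k → ∀ (G : Type u) [Group G] (S : Set G), S.Finite →
      Subgroup.closure S = ⊤ → ∀ H : Subgroup G, H.index ≠ 0 → H.index ≤ d →
      InClass k H → GoodEigenvalues k H →
      Tendsto (fun n : ℕ => Real.log (Nat.card ↥(S ^ n)) / n) atTop (𝓝 (rho S)) ∧
        (Group.IsVirtuallyNilpotent G ∨ 1 / (2 ^ (k + 4) * (2 * d - 1)) ≤ rho S)) ∧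
    ((∃ c > 0, ClassTwoGap c) ↔ LehmerForReciprocalUnits) ∧
    ((∀ k : ℕ, 1 ≤ k → ∃ c > 0, ClassKGap k c) ↔ LehmerForReciprocalUnits) := by
  refine ⟨?_, R701.UG.equiv_all.1, R701.UG.equiv_all.2⟩
  intro k d hk G _ S hfin hgen H hH0 hHd hnil hrec
  refine ⟨H746UG.tendsto_rho S, R701.UG.gap_rel hk S hfin hgen H hH0 hHd hnil ?_⟩
  intro t z hz h0 h1 h2 h3
  rcases hrec t z hz ⟨h0, h1, h2, h3⟩ with h | h
  · exact R701.UG.notRecip_of_odd h1 h0 h2 h3 h
  · exact h

end Pool.Agent.Results.MP_d69e80_al.RelativelyReciprocal
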